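import Pool.Agent.V11273.PV.G19

/-!
# Split semi-elliptic logarithms of algebraic functions: algebraic independence in bounded degree and height at almost all
algebraic points of all varieties

Let `Λ_1, …, Λ_q` be arbitrary lattices which are pairwise not isogenous (for the conjecture: one lattice `Ω`), let `U` be a
nonempty connected open set of `ℂ^d`, `d ≥ 1`, let `t_1, …, t_s` be analytic functions on `U` the exponentials of which are
algebraic functions, and let `p_1, …, p_n` be analytic functions on `U`, `p_i` with values outside of the lattice of number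
`ty i`, such that `℘(p_i)` is an algebraic function for `i ∈ M` and `ζ(p_i)` is an algebraic function for `i ∉ M`. We assume that
no nontrivial combination of the `t_k` with integral coefficients is constant and that for every lattice no nontrivial
combination of the functions `p_i` which belong to it, with coefficients in its ring of multipliers, is constant. The
algebraic functions may satisfy any algebraic relations, so that the points `(exp(t), ℘(p_i), ζ(p_i))` run through an
arbitrary variety of dimension `d`.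

At an algebraic point `z` the numbers `exp(t_k(z))`, `℘(p_i(z))` for `i ∈ M`, `ζ(p_i(z))` for `i ∉ M` are algebraic (if the
functions are algebraic over `ℚ(x)`), and according to the conjecture the `s + n` numbers `t_k(z)`, `p_i(z)` are algebraically
independent if they are independent. We prove this in bounded degree and height for almost all algebraic points `z`, together
with `n` further numbers, `s + 2 n` in all:

  `t_1(z), …, t_s(z), p_1(z), …, p_n(z)`, `ζ(p_i(z))` for `i ∈ M`, `℘(p_i(z))` for `i ∉ M`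

satisfy no polynomial relation of degree at most `ω T` and height at most `T ^ ω T`, not even with coefficients which are
combinations of arbitrary fixed complex numbers `ξ_i`, at all points `z ∈ U` of height at most `T` over a number field of
degree at most `ω T`, outside of a sparse set. Here `ω T → ∞`.
-/

set_option autoImplicit false

open Filter NumberField
open scoped PeriodPair

namespace Pool.Agent.Results.MP_c9768e_nt.AlgebraicFunctions

/-- The Weierstrass zeta function `ζ(z) = ∑ (1/(z-l) + 1/l + z/l²)`, the sum over the lattice (the summand of `l = 0` is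
`1/z`, as `1/0 = 0`). -/
noncomputable def ζ (L : PeriodPair) (z : ℂ) : ℂ := ∑' l : L.lattice, (1 / (z - l) + 1 / l + z / l ^ 2)

/-- `a` is a multiplier of the lattice: an endomorphism of the elliptic curve -/
def Multiplier (L : PeriodPair) (a : ℂ) : Prop := ∀ w ∈ L.lattice, a * w ∈ L.lattice

/-- there is no nonzero homomorphism of elliptic curves -/
def NotIsogenous (L M : PeriodPair) : Prop := ∀ a : ℂ, (∀ w ∈ L.lattice, a * w ∈ M.lattice) → a = 0

/-- `g` is an algebraic function of the coordinates on `U`: it satisfies an equation `Q(x, g(x)) = 0`, `Q ≠ 0` a polynomial -/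
def IsAlgebraicOn {X : Type} (U : Set (X → ℂ)) (g : (X → ℂ) → ℂ) : Prop :=
  ∃ Q : Polynomial (MvPolynomial X ℂ), Q ≠ 0 ∧ ∀ x ∈ U, Q.eval₂ (MvPolynomial.eval x) (g x) = 0

/-- Logarithms `t_k` and elliptic logarithms or inverse values of `ζ` `p_i` of algebraic functions on `U`, independent modulo
constants. -/
structure Logarithms {X : Type} [Fintype X] (U : Set (X → ℂ)) {q n s : ℕ} (Λ : Fin q → PeriodPair) (ty : Fin n → Fin q)
    (M : Finset (Fin n)) (t : Fin s → (X → ℂ) → ℂ) (p : Fin n → (X → ℂ) → ℂ) : Prop where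
  isOpen : IsOpen U
  isPreconnected : IsPreconnected U
  nonempty : U.Nonempty
  notIsogenous : ∀ c c', c ≠ c' → NotIsogenous (Λ c) (Λ c')
  analytic_t : ∀ k, AnalyticOnNhd ℂ (t k) U
  algebraic_exp : ∀ k, IsAlgebraicOn U fun z => Complex.exp (t k z)
  independent_t : ∀ m : Fin s → ℤ, m ≠ 0 → ∀ b : ℂ, ∃ z ∈ U, ∑ k, (m k : ℂ) * t k z ≠ b
  analytic_p : ∀ i, AnalyticOnNhd ℂ (p i) U
  notMem : ∀ i, ∀ z ∈ U, p i z ∉ (Λ (ty i)).lattice
  algebraic_wp : ∀ i ∈ M, IsAlgebraicOn U fun z => ℘[Λ (ty i)] (p i z)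
  algebraic_zeta : ∀ i, i ∉ M → IsAlgebraicOn U fun z => ζ (Λ (ty i)) (p i z)
  independent_p : ∀ (c : Fin q) (a : Fin n → ℂ), (∀ i, Multiplier (Λ c) (a i)) → (∀ i, ty i ≠ c → a i = 0) → a ≠ 0 →
    ∀ b : ℂ, ∃ z ∈ U, ∑ i, a i * p i z ≠ b

open Classical in
/-- The `s + 2 n` numbers `t_k(z)`, `p_i(z)`, and `ζ(p_i(z))` for `i ∈ M`, `℘(p_i(z))` for `i ∉ M`. -/
noncomputable def value {X : Type} {q n s : ℕ} (Λ : Fin q → PeriodPair) (ty : Fin n → Fin q) (M : Finset (Fin n))
    (t : Fin s → (X → ℂ) → ℂ) (p : Fin n → (X → ℂ) → ℂ) (z : X → ℂ) : Fin s ⊕ (Fin n ⊕ Fin n) → ℂ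
  | Sum.inl k => t k z
  | Sum.inr (Sum.inl i) => p i z
  | Sum.inr (Sum.inr i) => if i ∈ M then ζ (Λ (ty i)) (p i z) else ℘[Λ (ty i)] (p i z)

/-- quotients of two integers of `K`, all conjugates of which are at most `T` -/
def HeightLe (K : Type) [Field K] [NumberField K] (T : ℝ) (x : K) : Prop :=
  ∃ a b : 𝓞 K, b ≠ 0 ∧ house (a : K) ≤ T ∧ house (b : K) ≤ T ∧ x = a / b

/-- `S` is covered by at most `m` hypersurfaces of degree at most `D` -/
def CoveredBy {X : Type} (D m : ℕ) (S : Set (X → ℂ)) : Prop :=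
  ∃ Φ : Finset (MvPolynomial X ℂ), Φ.card ≤ m ∧ (∀ P ∈ Φ, P ≠ 0 ∧ P.totalDegree ≤ D) ∧
    ∀ x ∈ S, ∃ P ∈ Φ, MvPolynomial.eval x P = 0

/-- the points of norm at most `k` at distance at least `1 / k` from the complement of `U` -/
def Inner {X : Type} [Fintype X] (U : Set (X → ℂ)) (k : ℕ) : Set (X → ℂ) :=
  {z | ‖z‖ ≤ k ∧ Metric.ball z (k : ℝ)⁻¹ ⊆ U}

/-- the partial degrees of `P` are at most `k`, and its coefficients are `∑ ξ i * c i`, `i < k`, where the `c i` are
integers of `K`, all conjugates of which are at most `T ^ k` -/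
def Small {σ : Type} (K : Type) [Field K] [NumberField K] (io : K →+* ℂ) (k : ℕ) (ξ : Fin k → ℂ) (T : ℝ)
    (P : MvPolynomial σ ℂ) : Prop :=
  (∀ y, P.degreeOf y ≤ k) ∧ ∀ m, ∃ c : Fin k → 𝓞 K, (∀ i (φ : K →+* ℂ), ‖φ (c i : K)‖ ≤ T ^ (k : ℝ)) ∧
    P.coeff m = ∑ i, ξ i * io (c i : K)

/-- The exceptional points `z` over `K`: they are of height at most `T`, in the compact set `Inner U k`, and some nonzero
small polynomial vanishes at the `s + 2 n` numbers. -/
def Exceptional {X : Type} [Fintype X] {q n s : ℕ} (U : Set (X → ℂ)) (Λ : Fin q → PeriodPair) (ty : Fin n → Fin q)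
    (M : Finset (Fin n)) (t : Fin s → (X → ℂ) → ℂ) (p : Fin n → (X → ℂ) → ℂ)
    (K : Type) [Field K] [NumberField K] (io : K →+* ℂ) (k : ℕ) (ξ : Fin k → ℂ) (T : ℝ) : Set (X → K) :=
  {z | (∀ i, HeightLe K T (z i)) ∧ (fun i => io (z i)) ∈ Inner U k ∧
    ∃ P : MvPolynomial (Fin s ⊕ (Fin n ⊕ Fin n)) ℂ, Small K io k ξ T P ∧
      MvPolynomial.eval (fun a => value Λ ty M t p (fun i => io (z i)) a) P = 0 ∧ P ≠ 0}

/-- Let `t_k`, `k < s`, and `p_i`, `i < n`, be logarithms and elliptic logarithms (`i ∈ M`) or inverse values of `ζ` (`i ∉ M`)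
of algebraic functions on a nonempty connected open set `U` of `ℂ^d`, `d ≥ 1`, independent modulo constants, `n + s ≥ 1`. There
is `ω → ∞` such that for all large `T`, all number fields `K` of degree at most `ω T`, embedded in `ℂ`, and all complex numbers
`ξ i`, `i < ω T`, the set of the exceptional points lies on at most `T ^ (1 / ω T)` hypersurfaces of degree at most
`T ^ (1 / ω T)`, and has at most `T ^ (1 / ω T) * N ^ (d - 1)` elements, where `N` is the number of the elements of `K` of height
at most `T`. At all other points `z` with coordinates in `K` of height at most `T` (in `Inner U (ω T)`) the `s + 2 n` numbers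
`t_k(z)`, `p_i(z)`, `ζ(p_i(z))` (`i ∈ M`), `℘(p_i(z))` (`i ∉ M`) satisfy no nonzero polynomial relation of partial degrees at
most `ω T` with coefficients `∑ ξ i * c i`, `c i` integers of `K` of size at most `T ^ ω T`. -/
theorem result {X : Type} [Fintype X] [DecidableEq X] [Nonempty X] {q n s : ℕ} (hns : 0 < s + n) (U : Set (X → ℂ))
    (Λ : Fin q → PeriodPair) (ty : Fin n → Fin q) (M : Finset (Fin n)) (t : Fin s → (X → ℂ) → ℂ)
    (p : Fin n → (X → ℂ) → ℂ) (hL : Logarithms U Λ ty M t p) :
    ∃ (ω : ℝ → ℕ) (T₀ : ℝ), Tendsto ω atTop atTop ∧ Monotone ω ∧ ∀ T, T₀ ≤ T → 0 < ω T ∧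
      ∀ (K : Type) [Field K] [NumberField K], Module.finrank ℚ K ≤ ω T → ∀ (io : K →+* ℂ) (ξ : Fin (ω T) → ℂ),
        CoveredBy ⌊T ^ ((ω T : ℝ)⁻¹)⌋₊ ⌊T ^ ((ω T : ℝ)⁻¹)⌋₊
          ((fun z i => io (z i)) '' Exceptional U Λ ty M t p K io (ω T) ξ T) ∧
        (Exceptional U Λ ty M t p K io (ω T) ξ T).Finite ∧
        ((Exceptional U Λ ty M t p K io (ω T) ξ T).ncard : ℝ) ≤
          T ^ ((ω T : ℝ)⁻¹) * ({x : K | HeightLe K T x}.ncard : ℝ) ^ (Fintype.card X - 1) := by
  have hv : value Λ ty M t p = fun z a => Pool.Agent.V11273.PV.yOther Λ ty p t M a z := by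
    funext z a
    rcases a with k | i | i
    · rfl
    · rfl
    · by_cases hi : i ∈ M
      · simp only [value, hi, if_true, Pool.Agent.V11273.PV.yOther, Pool.Agent.V11273.PV.other, Sum.elim_inr]
        rfl
      · simp only [value, hi, if_false, Pool.Agent.V11273.PV.yOther, Pool.Agent.V11273.PV.other, Sum.elim_inr]
  have hF : Pool.Agent.V11273.PV.FxD U Λ ty p t :=
    ⟨hL.isOpen, hL.isPreconnected, hL.nonempty, hL.notIsogenous, hL.analytic_p, hL.notMem, (by
      intro c a b ha hta hb
      by_contra hne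
      obtain ⟨z, hz, hzn⟩ := hL.independent_p c a ha hta hne b
      exact hzn (hb z hz)), hL.analytic_t, (by
      intro m b hb
      by_contra hne
      obtain ⟨z, hz, hzn⟩ := hL.independent_t m hne b
      exact hzn (hb z hz))⟩
  have h1 := Pool.Agent.V11273.PV.ell_ind hF hns M hL.algebraic_exp hL.algebraic_wp hL.algebraic_zeta
  have h2 := Pool.Agent.V11273.PV.main_indep1 hL.isPreconnected hL.isOpen hL.nonempty
    (f := Pool.Agent.V11273.PV.yOther Λ ty p t M) (by
    rintro (k | i | i)
    · exact Pool.Agent.V11273.PV.yD_an hF (Sum.inl k)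
    · exact Pool.Agent.V11273.PV.yD_an hF (Sum.inr (Sum.inr (Sum.inl i)))
    · by_cases hi : i ∈ M
      · have h3 := Pool.Agent.V11273.PV.yD_an hF (Sum.inr (Sum.inr (Sum.inr (Sum.inl i))))
        have h4 : Pool.Agent.V11273.PV.yOther Λ ty p t M (Sum.inr (Sum.inr i)) =
            Pool.Agent.V11273.PV.yD Λ ty p t (Sum.inr (Sum.inr (Sum.inr (Sum.inl i)))) := by
          funext z
          simp [Pool.Agent.V11273.PV.yOther, Pool.Agent.V11273.PV.other, hi, Pool.Agent.V11273.PV.yD]
        rw [h4]
        exact h3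
      · have h3 := Pool.Agent.V11273.PV.yD_an hF (Sum.inr (Sum.inr (Sum.inr (Sum.inr i))))
        have h4 : Pool.Agent.V11273.PV.yOther Λ ty p t M (Sum.inr (Sum.inr i)) =
            Pool.Agent.V11273.PV.yD Λ ty p t (Sum.inr (Sum.inr (Sum.inr (Sum.inr i)))) := by
          funext z
          simp [Pool.Agent.V11273.PV.yOther, Pool.Agent.V11273.PV.other, hi, Pool.Agent.V11273.PV.yD]
        rw [h4]
        exact h3) h1
  unfold Exceptional
  rw [hv]
  exact h2

end Pool.Agent.Results.MP_c9768e_nt.AlgebraicFunctions
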