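import Pool.Agent.Helper264.NT.NearPV2
import Pool.Agent.V11273.PV.G19

/-!
# Split semi-elliptic logarithms of algebraic functions: algebraic independence in bounded degree and height at ALL algebraic
points near almost every point of all varieties

Let `Λ_1, …, Λ_q` be arbitrary lattices which are pairwise not isogenous (for the conjecture: one lattice `Ω`), let `U` be a
nonempty connected open set of `ℂ^d`, `d ≥ 1`, let `t_1, …, t_s` be analytic functions on `U` the exponentials of which are
algebraic functions, and let `p_1, …, p_n` be analytic functions on `U`, `p_i` with values outside of the lattice of number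
`ty i`, such that `℘(p_i)` is an algebraic function for `i ∈ M` and `ζ(p_i)` is an algebraic function for `i ∉ M`. We assume that
no nontrivial combination of the `t_k` with integral coefficients is constant and that for every lattice no nontrivial
combination of the functions `p_i` which belong to it, with coefficients in its ring of multipliers, is constant. The
algebraic functions may satisfy any algebraic relations, so that the points `(exp(t), ℘(p_i), ζ(p_i))` run through an
arbitrary variety of dimension `d`.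

At an algebraic point `z` the numbers `exp(t_k(z))`, `℘(p_i(z))` for `i ∈ M`, `ζ(p_i(z))` for `i ∉ M` are algebraic (if the
functions are algebraic over `ℚ(x)`), and according to the conjecture the `s + n` numbers `t_k(z)`, `p_i(z)` are algebraically
independent if they are independent. Consider them together with `n` further numbers, `s + 2 n` in all:

  `t_1(z), …, t_s(z), p_1(z), …, p_n(z)`, `ζ(p_i(z))` for `i ∈ M`, `℘(p_i(z))` for `i ∉ M`.

There is a set `E` in `ℂ^d` of Hausdorff dimension at most `2 d - 2` such that near every point `z` of `U` outside of `E` there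
are no exceptional points: for all `w > 0` (arbitrarily small), all number fields `K` and all `k`, for large `T`, at ALL points
with coordinates in `K` of height at most `T` at distance at most `T ^ (-w)` from `z` these numbers satisfy no nonzero
polynomial relation of partial degrees at most `k` with coefficients `∑ ξ i * c i`, `i < k`, `c i` integers of `K` of size at
most `T ^ k`, `ξ i` any given complex numbers (for instance the monomials in `2 π i`, `g₂, g₃` and the periods). For real
points `z` the same holds outside of a set in `ℝ^d` of dimension at most `d - 1`.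
-/

set_option autoImplicit false

open Filter NumberField
open scoped PeriodPair ENNReal

namespace Pool.Agent.Results.MP_c9768e_nt.NearEveryPoint

/-- The Weierstrass zeta function `ζ(z) = ∑ (1/(z-l) + 1/l + z/l²)`, the sum over the lattice (the summand of `l = 0` is
`1/z`, as `1/0 = 0`). -/
noncomputable def ζ (L : PeriodPair) (z : ℂ) : ℂ := ∑' l : L.lattice, (1 / (z - l) + 1 / l + z / l ^ 2)

/-- `a` is a multiplier of the lattice: an endomorphism of the elliptic curve -/
def Multiplier (L : PeriodPair) (a : ℂ) : Prop := ∀ w ∈ L.lattice, a * w ∈ L.lattice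

/-- there is no nonzero homomorphism of elliptic curves -/
def NotIsogenous (L M : PeriodPair) : Prop := ∀ a : ℂ, (∀ w ∈ L.lattice, a * w ∈ M.lattice) → a = 0

/-- `g` is an algebraic function of the coordinates on `U`: it satisfies an equation `Q(x, g(x)) = 0`, `Q ≠ 0` a polynomial -/
def IsAlgebraicOn {X : Type} (U : Set (X → ℂ)) (g : (X → ℂ) → ℂ) : Prop :=
  ∃ Q : Polynomial (MvPolynomial X ℂ), Q ≠ 0 ∧ ∀ x ∈ U, Q.eval₂ (MvPolynomial.eval x) (g x) = 0

/-- Logarithms `t_k` and elliptic logarithms or inverse values of `ζ` `p_i` of algebraic functions on `U`, independent modulo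
constants. -/
structure Logarithms {X : Type} [Fintype X] (U : Set (X → ℂ)) {q n s : ℕ} (Λ : Fin q → PeriodPair) (ty : Fin n → Fin q)
    (M : Finset (Fin n)) (t : Fin s → (X → ℂ) → ℂ) (p : Fin n → (X → ℂ) → ℂ) : Prop where
  isOpen : IsOpen U
  isPreconnected : IsPreconnected U
  nonempty : U.Nonempty
  notIsogenous : ∀ c c', c ≠ c' → NotIsogenous (Λ c) (Λ c')
  analytic_t : ∀ k, AnalyticOnNhd ℂ (t k) U
  algebraic_exp : ∀ k, IsAlgebraicOn U fun z => Complex.exp (t k z)
  independent_t : ∀ m : Fin s → ℤ, m ≠ 0 → ∀ b : ℂ, ∃ z ∈ U, ∑ k, (m k : ℂ) * t k z ≠ b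
  analytic_p : ∀ i, AnalyticOnNhd ℂ (p i) U
  notMem : ∀ i, ∀ z ∈ U, p i z ∉ (Λ (ty i)).lattice
  algebraic_wp : ∀ i ∈ M, IsAlgebraicOn U fun z => ℘[Λ (ty i)] (p i z)
  algebraic_zeta : ∀ i, i ∉ M → IsAlgebraicOn U fun z => ζ (Λ (ty i)) (p i z)
  independent_p : ∀ (c : Fin q) (a : Fin n → ℂ), (∀ i, Multiplier (Λ c) (a i)) → (∀ i, ty i ≠ c → a i = 0) → a ≠ 0 →
    ∀ b : ℂ, ∃ z ∈ U, ∑ i, a i * p i z ≠ b

open Classical in
/-- The `s + 2 n` functions `t_k`, `p_i`, and `ζ(p_i)` for `i ∈ M`, `℘(p_i)` for `i ∉ M`. -/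
noncomputable def value {X : Type} {q n s : ℕ} (Λ : Fin q → PeriodPair) (ty : Fin n → Fin q) (M : Finset (Fin n))
    (t : Fin s → (X → ℂ) → ℂ) (p : Fin n → (X → ℂ) → ℂ) : Fin s ⊕ (Fin n ⊕ Fin n) → (X → ℂ) → ℂ
  | Sum.inl k => t k
  | Sum.inr (Sum.inl i) => p i
  | Sum.inr (Sum.inr i) => fun z => if i ∈ M then ζ (Λ (ty i)) (p i z) else ℘[Λ (ty i)] (p i z)

/-- quotients of two integers of `K`, all conjugates of which are at most `T` -/
def HeightLe (K : Type) [Field K] [NumberField K] (T : ℝ) (x : K) : Prop :=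
  ∃ a b : 𝓞 K, b ≠ 0 ∧ house (a : K) ≤ T ∧ house (b : K) ≤ T ∧ x = a / b

/-- for a number field `K` embedded into `ℂ` by `io`: the partial degrees of `P` are at most `k`, and its coefficients are
`∑ ξ i * c i`, `i < k`, where the `c i` are integers of `K`, all conjugates of which are at most `T ^ k` -/
def Small {σ : Type} (K : Type) [Field K] [NumberField K] (io : K →+* ℂ) (k : ℕ) (ξ : ℕ → ℂ) (T : ℝ)
    (P : MvPolynomial σ ℂ) : Prop :=
  (∀ y, P.degreeOf y ≤ k) ∧ ∀ m, ∃ c : Fin k → 𝓞 K, (∀ i (φ : K →+* ℂ), ‖φ (c i : K)‖ ≤ T ^ (k : ℝ)) ∧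
    P.coeff m = ∑ i : Fin k, ξ i * io (c i : K)

/-- At all points `s` with coordinates in the number field `K` (embedded into `ℂ` by `io`) of height at most `T` and with
`|s i - z i| ≤ T ^ (-w)` for all `i`, no nonzero small polynomial vanishes at the numbers `v a s`. -/
def NoRelationNear {X S : Type} (v : S → (X → ℂ) → ℂ) (ξ : ℕ → ℂ) (z : X → ℂ) (w : ℝ) (K : Type) [Field K]
    [NumberField K] (io : K →+* ℂ) (k : ℕ) (T : ℝ) : Prop :=
  ∀ s : X → K, (∀ i, HeightLe K T (s i)) → (∀ i, ‖io (s i) - z i‖ ≤ T ^ (-w)) →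
    ∀ P : MvPolynomial S ℂ, Small K io k ξ T P →
      MvPolynomial.eval (fun a => v a fun i => io (s i)) P = 0 → P = 0

/-- The numbers `v a s` are independent in bounded degree and height at ALL algebraic points `s` near almost every point of
`U`, `d` being the number of coordinates:
(1) there is a set `E` in `ℂ ^ d` of Hausdorff dimension at most `2 (d - 1)` such that for all `z ∈ U` outside of `E`, all
`w > 0`, all number fields `K ⊂ ℂ` and all `k`, `NoRelationNear v ξ z w K k T` holds for all large `T`;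
(2) there is a set `E` in `ℝ ^ d` of dimension at most `d - 1` such that the same is true for all real `z ∈ U` outside of `E`
and all number fields `K ⊂ ℝ`. -/
def IndependentNearAlmostAll {X S : Type} [Fintype X] (U : Set (X → ℂ)) (v : S → (X → ℂ) → ℂ) (ξ : ℕ → ℂ) : Prop :=
  (∃ E : Set (X → ℂ), dimH E ≤ ((2 * (Fintype.card X - 1) : ℕ) : ℝ≥0∞) ∧ ∀ z ∈ U, z ∉ E → ∀ w : ℝ, 0 < w →
    ∀ (K : IntermediateField ℚ ℂ) [NumberField K] (k : ℕ), ∀ᶠ T : ℝ in atTop,
      NoRelationNear v ξ z w K (algebraMap K ℂ) k T) ∧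
  ∃ E : Set (X → ℝ), dimH E ≤ ((Fintype.card X - 1 : ℕ) : ℝ≥0∞) ∧
    ∀ z : X → ℝ, (fun i => (z i : ℂ)) ∈ U → z ∉ E → ∀ w : ℝ, 0 < w →
    ∀ (K : IntermediateField ℚ ℝ) [NumberField K] (k : ℕ), ∀ᶠ T : ℝ in atTop,
      NoRelationNear v ξ (fun i => (z i : ℂ)) w K (Complex.ofRealHom.comp (algebraMap K ℝ)) k T

/-- Let `t_k`, `k < s`, and `p_i`, `i < n`, be logarithms and elliptic logarithms (`i ∈ M`) or inverse values of `ζ` (`i ∉ M`)
of algebraic functions on a nonempty connected open set `U` of `ℂ^d`, `d ≥ 1`, independent modulo constants, `n + s ≥ 1`, and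
let `ξ i` be complex numbers. The `s + 2 n` numbers `t_k(z)`, `p_i(z)`, `ζ(p_i(z))` (`i ∈ M`), `℘(p_i(z))` (`i ∉ M`) are
independent in bounded degree and height at ALL algebraic points near every point outside of a set of dimension at most
`2 (d - 1)` (complex points), `d - 1` (real points): see `IndependentNearAlmostAll`. -/
theorem result {X : Type} [Fintype X] [DecidableEq X] [Nonempty X] {q n s : ℕ} (hns : 0 < s + n) (U : Set (X → ℂ))
    (Λ : Fin q → PeriodPair) (ty : Fin n → Fin q) (M : Finset (Fin n)) (t : Fin s → (X → ℂ) → ℂ)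
    (p : Fin n → (X → ℂ) → ℂ) (hL : Logarithms U Λ ty M t p) (ξ : ℕ → ℂ) :
    IndependentNearAlmostAll U (value Λ ty M t p) ξ := by
  classical
  have hv : value Λ ty M t p = Pool.Agent.V11273.PV.yOther Λ ty p t M := by
    funext a z
    rcases a with k | i | i
    · rfl
    · rfl
    · by_cases hi : i ∈ M
      · simp only [value, hi, if_true, Pool.Agent.V11273.PV.yOther, Pool.Agent.V11273.PV.other, Sum.elim_inr]
        rfl
      · simp only [value, hi, if_false, Pool.Agent.V11273.PV.yOther, Pool.Agent.V11273.PV.other, Sum.elim_inr]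
  have hF : Pool.Agent.V11273.PV.FxD U Λ ty p t :=
    ⟨hL.isOpen, hL.isPreconnected, hL.nonempty, hL.notIsogenous, hL.analytic_p, hL.notMem, (by
      intro c a b ha hta hb
      by_contra hne
      obtain ⟨z, hz, hzn⟩ := hL.independent_p c a ha hta hne b
      exact hzn (hb z hz)), hL.analytic_t, (by
      intro m b hb
      by_contra hne
      obtain ⟨z, hz, hzn⟩ := hL.independent_t m hne b
      exact hzn (hb z hz))⟩
  have h1 := Pool.Agent.V11273.PV.ell_ind hF hns M hL.algebraic_exp hL.algebraic_wp hL.algebraic_zeta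
  have h2 : ∀ a, AnalyticOnNhd ℂ (Pool.Agent.V11273.PV.yOther Λ ty p t M a) U := by
    rintro (k | i | i)
    · exact Pool.Agent.V11273.PV.yD_an hF (Sum.inl k)
    · exact Pool.Agent.V11273.PV.yD_an hF (Sum.inr (Sum.inr (Sum.inl i)))
    · by_cases hi : i ∈ M
      · have h3 := Pool.Agent.V11273.PV.yD_an hF (Sum.inr (Sum.inr (Sum.inr (Sum.inl i))))
        have h4 : Pool.Agent.V11273.PV.yOther Λ ty p t M (Sum.inr (Sum.inr i)) =
            Pool.Agent.V11273.PV.yD Λ ty p t (Sum.inr (Sum.inr (Sum.inr (Sum.inl i)))) := by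
          funext z
          simp [Pool.Agent.V11273.PV.yOther, Pool.Agent.V11273.PV.other, hi, Pool.Agent.V11273.PV.yD]
        rw [h4]
        exact h3
      · have h3 := Pool.Agent.V11273.PV.yD_an hF (Sum.inr (Sum.inr (Sum.inr (Sum.inr i))))
        have h4 : Pool.Agent.V11273.PV.yOther Λ ty p t M (Sum.inr (Sum.inr i)) =
            Pool.Agent.V11273.PV.yD Λ ty p t (Sum.inr (Sum.inr (Sum.inr (Sum.inr i)))) := by
          funext z
          simp [Pool.Agent.V11273.PV.yOther, Pool.Agent.V11273.PV.other, hi, Pool.Agent.V11273.PV.yD]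
        rw [h4]
        exact h3
  have h5 := Pool.Agent.Helper264.NT.near_two (S := Fin s ⊕ Fin n ⊕ Fin n)
    (f := Pool.Agent.V11273.PV.yOther Λ ty p t M) hL.isPreconnected hL.isOpen hL.nonempty h2 h1 ξ
  rw [hv]
  exact h5

end Pool.Agent.Results.MP_c9768e_nt.NearEveryPoint
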