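import Pool.Agent.Results.MP_c9768e_nt.AlmostAllTuples
import Pool.Agent.H223.NP.Fields

/-!
# Split semi-elliptic logarithms near all points outside of a set of dimension `2 (n - 1)`

The problem: if `e ^ (t_l)` (`l ≤ s`), `℘ (p_i)` (`i ≤ m`) and `ζ (p_i)` (`m < i ≤ n`) are algebraic, the `t_l` linearly
independent over `ℚ` and the `p_i` over `End`, the `s + n` numbers `t_l`, `p_i` should be algebraically independent. We
consider for every `j ≤ n` an analytic function `q_j` on an open connected set `S_j` with `exp (q_j (t)) = t`, or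
`℘_j (q_j (t)) = t`, or `ζ_j (q_j (t)) = t` (`℘_j`, `ζ_j` the functions of any lattice `L_j`); thus `q_j (x_j)` is, for
algebraic `x_j`, any of the logarithms of the problem.

The starting result `AlmostAllTuples` says for every number field that the exceptional tuples `x`, for which the `n + 1`
numbers `π`, `q_j (x_j)` satisfy a relation of bounded degree and of polynomially bounded height, are rare at every scale.
Here there are no exceptional tuples: there is ONE set `E` in `ℂ ^ n` of Hausdorff dimension at most `2 (n - 1)` such that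
for all `y` outside of `E` with `y_j` in `S_j`, ALL number fields `K`, all degrees `d`, all `A` and ALL exponents `w > 0`
(arbitrarily small), no tuple `x` in `K ^ n` of height at most `T` with `|x - y| ≤ T ^ (-w)` satisfies a relation, even an
approximate one, of degree at most `d` and height at most `T ^ A`, if `T` is large. The bound for the dimension is sharp:
if `n ≥ 2`, `q_1 = q_2` and `y_1 = y_2` there are exceptional tuples with `x_1 = x_2` near `y`. For `n = 1` the dimension of
`E` is zero.

The proof combines the hypersurface covers of the starting result with the theorem on neighbourhoods of hypersurfaces of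
bounded degree of helper264 (`Pool.Agent.Helper264.NT`).
-/

set_option autoImplicit false

open Set Height
open scoped ENNReal

namespace Pool.Agent.Results.MP_c9768e_nt.NearPoints

/-- The Weierstrass zeta function `ζ(z) = ∑ (1/(z-l) + 1/l + z/l²)`, the sum over the lattice (the summand of `l = 0` is
`1/z`, since `1/0 = 0` in Lean). -/
noncomputable def zeta (L : PeriodPair) (z : ℂ) : ℂ := ∑' l : L.lattice, (1 / (z - l) + 1 / l + z / l ^ 2)

/-- `q` is, on `S`, a logarithm of one of the three kinds: a branch of the inverse function of the exponential function,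
or of `℘`, or of `ζ` (for the lattice `L`). -/
def IsLog (L : PeriodPair) (S : Set ℂ) (q : ℂ → ℂ) : Prop :=
  (∀ t ∈ S, Complex.exp (q t) = t) ∨
  (∀ t ∈ S, q t ∉ L.lattice ∧ L.weierstrassP (q t) = t) ∨
  (∀ t ∈ S, q t ∉ L.lattice ∧ zeta L (q t) = t)

/-- The `n + 1` numbers `π`, `q_j (x_j)`. -/
noncomputable def numbers {n : ℕ} (q : Fin n → ℂ → ℂ) (x : Fin n → ℂ) : Option (Fin n) → ℂ
  | none => (Real.pi : ℂ)
  | some j => q j (x j)

/-- Some nonzero polynomial of degree at most `d` in each variable, with coefficients in `K` of height at most `U`, has at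
the numbers of the tuple `x` of elements of `K` a value of absolute value at most `δ`. -/
def Related {n : ℕ} (q : Fin n → ℂ → ℂ) (K : IntermediateField ℚ ℂ) [NumberField K] (d : ℕ) (U δ : ℝ)
    (x : Fin n → K) : Prop :=
  ∃ P : MvPolynomial (Option (Fin n)) K, P ≠ 0 ∧ (∀ i, P.degreeOf i ≤ d) ∧ (∀ e, mulHeight₁ (P.coeff e) ≤ U) ∧
    ‖MvPolynomial.eval₂ (algebraMap K ℂ) (numbers q (fun j => (x j : ℂ))) P‖ ≤ δ

/-- Let `n ≥ 1`, let `L_1, …, L_n` be lattices, `S_j` open connected subsets of `ℂ` and `q_j` analytic on `S_j` and a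
logarithm of one of the three kinds. There is a subset `E` of `ℂ ^ n` of Hausdorff dimension at most `2 (n - 1)` such that
for all `y` outside of `E` with `y_j` in `S_j`, all number fields `K`, all `d`, `A` and `w > 0` there are `B` and `T₀` such
that for all `T ≥ T₀` no `n`-tuple `x` of elements of `K` of height at most `T` with `|x_j - y_j| ≤ T ^ (-w)` has a relation
of degree at most `d`, of height at most `T ^ A`, up to `T ^ (-B)`. -/
theorem result (n : ℕ) (hn : 1 ≤ n) (L : Fin n → PeriodPair) (S : Fin n → Set ℂ) (hSo : ∀ j, IsOpen (S j))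
    (hSc : ∀ j, IsConnected (S j)) (q : Fin n → ℂ → ℂ) (hq : ∀ j, AnalyticOnNhd ℂ (q j) (S j))
    (hlog : ∀ j, IsLog (L j) (S j) (q j)) :
    ∃ E : Set (Fin n → ℂ), dimH E ≤ ((2 * (n - 1) : ℕ) : ℝ≥0∞) ∧ ∀ y ∉ E, (∀ j, y j ∈ S j) →
      ∀ (K : IntermediateField ℚ ℂ) [NumberField K] (d : ℕ) (A w : ℝ), 0 < w → ∃ B T₀ : ℝ, ∀ T ≥ T₀,
        ∀ x : Fin n → K, (∀ j, mulHeight₁ (x j) ≤ T ∧ ‖(x j : ℂ) - y j‖ ≤ T ^ (-w)) →
          ¬ Related q K d (T ^ A) (T ^ (-B)) x := by
  haveI : Nonempty (Fin n) := ⟨⟨0, hn⟩⟩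
  obtain ⟨E, hE1, hE2⟩ := Pool.Agent.H223.NP.near_fields (𝕜 := ℂ) (X := Fin n) S hSo
    (fun K _ d U δ x => Related q K d U δ x)
    (fun K _ d U U' δ δ' t h1 h2 ⟨P, h3, h4, h5, h6⟩ => ⟨P, h3, h4, fun e => (h5 e).trans h1, h6.trans h2⟩)
    (fun K _ d A W hW hW0 ε hε => by
      obtain ⟨D, B, C, h⟩ := AlmostAllTuples.result K (algebraMap K ℂ) n d hn L S hSo hSc q hq hlog W hW hW0 A ε hε
      refine ⟨D, B, C, fun T hT => ?_⟩
      obtain ⟨⟨Φ, h1, h2, h3⟩, -, -⟩ := h T hT
      refine ⟨Φ, h1, h2, fun t ht hR => h3 t ⟨fun j => ht j, ?_⟩⟩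
      have hnum : AlmostAllTuples.numbers (algebraMap K ℂ) q t = numbers q (fun j => (t j : ℂ)) := by
        funext i
        rcases i with _ | j
        · rfl
        · rfl
      rw [hnum]
      exact hR)
  refine ⟨E, by simpa using hE1, fun y hy hy0 K _ d A w hw => ?_⟩
  obtain ⟨B, T₀, h⟩ := hE2 y hy hy0 K d A w hw
  exact ⟨B, T₀, fun T hT x hx => h T hT x hx⟩

end Pool.Agent.Results.MP_c9768e_nt.NearPoints
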