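import Pool.Agent.Results.MP_c9768e_nt.BoundedDegreeTuples
import Pool.Agent.V11286.NE.Roots

/-!
# Elliptic logarithms at ALL tuples of algebraic integers in windows around almost every direction

`L` is a lattice with rational invariants, `k, m ≥ 1`, the real numbers `v_1, v_2, …` tend to infinity faster than every
power (for instance `v_N = 2 ^ N`), and `F` is a countable set of complex numbers (for instance the field generated by all
periods). For almost all real `k × m`-matrices `A` the following holds for all tuples `θ` of distinct natural numbers, all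
`δ`, `d` and all finite subsets `S` of `F`. For all large `N` and ALL `k`-tuples of algebraic integers `α_i` of degree `m`
such that the coefficient of `X ^ j` in the minimal polynomial of `α_i` is at most `v_N ^ ϑ` away from
`A_ij v_N ^ (m - j)`, no elliptic logarithms `p` with `℘(p) = α_i + θ_j`, together with the numbers `ζ(p)` and arbitrary
logarithms of the `α_i + θ_j`, satisfy a nontrivial relation of degree at most `δ` with coefficients in the span of `S` over
a number field of degree at most `d`. The exponent `ϑ > 0` depends only on `L`, `k`, `m`, `θ`, `δ`, `d` and the number of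
elements of `S`.

The proof: the count of the exceptional tuples in boxes (library `Pool.Agent.Y916.Sl`, starting result
`BoundedDegreeTuples`), which is uniform in `S`, a weighted covering argument and the lemma of Borel and Cantelli.
-/

set_option autoImplicit false

namespace Pool.Agent.Results.MP_c9768e_nt.WindowsOfAlgebraicIntegers

open MeasureTheory Polynomial BoundedDegreeTuples

/-- the real numbers `v_N ≥ 1` tend to infinity so fast that `∑ v_N ^ (-s) < ∞` for all `s > 0`, for instance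
`v_N = 2 ^ N` -/
def Fast (v : ℕ → ℝ) : Prop := (∀ n, 1 ≤ v n) ∧ ∀ s : ℝ, 0 < s → Summable fun n : ℕ => (v n) ^ (-s)

/-- The `α_i` are algebraic integers of degree `m`, with minimal polynomials `f_i` such that the coefficient of `X ^ j` in
`f_i` is at most `v ^ t` away from `A_ij v ^ (m - j)` for all `j < m`. -/
def InWindows {k m : ℕ} (A : Fin k × Fin m → ℝ) (v t : ℝ) (α : Fin k → ℂ) : Prop :=
  ∃ f : Fin k → ℤ[X], (∀ i, (f i).Monic ∧ (f i).natDegree = m ∧ Irreducible (f i) ∧ aeval (α i) (f i) = 0) ∧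
    ∀ (i : Fin k) (j : Fin m), |((f i).coeff j : ℝ) - A (i, j) * v ^ (m - (j : ℕ))| ≤ v ^ t

/-- **Main result.** -/
theorem result (L : PeriodPair) (a b : ℚ) (ha : L.g₂ = a) (hb : L.g₃ = b) (k m : ℕ) (hk : 1 ≤ k) (hm : 1 ≤ m) :
    Fast (fun n => (2 : ℝ) ^ n) ∧
    ∃ ϑ : (r : ℕ) → (Fin r → ℕ) → ℕ → ℕ → ℕ → ℝ, (∀ r θ δ d D, 0 < ϑ r θ δ d D) ∧ ∀ v : ℕ → ℝ, Fast v →
      ∀ F : Set ℂ, F.Countable → ∀ᵐ A : Fin k × Fin m → ℝ,
        ∀ (r : ℕ) (θ : Fin r → ℕ), Function.Injective θ → ∀ (δ d : ℕ) (S : Finset ℂ), (S : Set ℂ) ⊆ F →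
          ∃ N₀ : ℕ, ∀ N : ℕ, N₀ ≤ N → ∀ α : Fin k → ℂ, InWindows A (v N) (ϑ r θ δ d S.card) α →
            ¬ Related L δ d (Submodule.span ℚ (S : Set ℂ)) θ α := by
  classical
  have key : ∀ (r : ℕ) (θ : Fin r → ℕ) (δ d D : ℕ), ∃ c C : ℝ, 0 < c ∧ 0 ≤ C ∧ (Function.Injective θ →
      ∀ V : Submodule ℚ ℂ, Module.Finite ℚ V → Module.finrank ℚ V ≤ D → ∀ T : ℕ, 1 ≤ T →
        {α : Fin k → ℂ | (∀ i, Pool.Agent.Y916.Sl.AInt m T (α i)) ∧ α ∈ {α | Related L δ d V θ α}}.Finite ∧
        ({α : Fin k → ℂ | (∀ i, Pool.Agent.Y916.Sl.AInt m T (α i)) ∧ α ∈ {α | Related L δ d V θ α}}.ncard : ℝ) ≤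
          C * (T : ℝ) ^ (((k * Pool.Agent.Y916.Sl.Mm m : ℕ) : ℝ) - c)) := by
    intro r θ δ d D
    by_cases hθ : Function.Injective θ
    · obtain ⟨c, hc, C, hC, h⟩ := Pool.Agent.Y916.Sl.ellD Pool.Agent.Y916.Sl.tV Pool.Agent.Y916.Sl.tW L a b ha hb m θ hθ
        k δ d D
      exact ⟨c, C, hc, hC, fun _ => h⟩
    · exact ⟨1, 0, one_pos, le_rfl, fun h => absurd h hθ⟩
  choose c C hc hC0 hC using key
  refine ⟨⟨fun n => one_le_pow₀ (by norm_num), fun s hs => Pool.Agent.V11286.NE.sum_two s hs⟩,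
    fun r θ δ d D => Pool.Agent.V11286.NE.expo k m (c r θ δ d D),
    fun r θ δ d D => Pool.Agent.V11286.NE.expo_pos hk hm (hc r θ δ d D), ?_⟩
  intro v hv F hF
  have : Countable F := hF.to_subtype
  have main : ∀ᵐ A : Fin k × Fin m → ℝ, ∀ (r : ℕ) (θ : Fin r → ℕ) (δ d : ℕ) (S : Finset F), Function.Injective θ →
      ∃ N₀ : ℕ, ∀ N : ℕ, N₀ ≤ N → ∀ f : Fin k → ℤ[X],
      (∀ i, (f i).Monic ∧ (f i).natDegree = m ∧ Irreducible (f i)) →
        (∀ (i : Fin k) (j : Fin m), |((f i).coeff j : ℝ) - A (i, j) * (v N) ^ (m - (j : ℕ))| ≤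
          (v N) ^ Pool.Agent.V11286.NE.expo k m (c r θ δ d S.card)) → ∀ α : Fin k → ℂ, (∀ i, aeval (α i) (f i) = 0) →
            α ∉ {α | Related L δ d (Submodule.span ℚ ((S.map ⟨Subtype.val, Subtype.val_injective⟩ :
              Finset ℂ) : Set ℂ)) θ α} := by
    rw [ae_all_iff]; intro r
    rw [ae_all_iff]; intro θ
    rw [ae_all_iff]; intro δ
    rw [ae_all_iff]; intro d
    rw [ae_all_iff]; intro S
    by_cases hθ : Function.Injective θ
    · have hVf : Module.Finite ℚ (Submodule.span ℚ ((S.map ⟨Subtype.val, Subtype.val_injective⟩ :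
          Finset ℂ) : Set ℂ)) := Module.Finite.span_finset ℚ _
      have hVd : Module.finrank ℚ (Submodule.span ℚ ((S.map ⟨Subtype.val, Subtype.val_injective⟩ :
          Finset ℂ) : Set ℂ)) ≤ S.card := by
        refine (finrank_span_finset_le_card _).trans ?_
        rw [Finset.card_map]
      have h1 := Pool.Agent.V11286.NE.roots_ae hk hm _ (hc r θ δ d S.card) (hC0 r θ δ d S.card)
        (hC r θ δ d S.card hθ _ hVf hVd) hv.1 hv.2
      filter_upwards [h1] with A hA _ using hA
    · exact Filter.Eventually.of_forall fun A h => absurd h hθ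
  filter_upwards [main] with A hA r θ hθ δ d S hS
  obtain ⟨S', hS'⟩ : ∃ S' : Finset F, S = S'.map ⟨Subtype.val, Subtype.val_injective⟩ := by
    refine ⟨S.subtype (· ∈ F), ?_⟩
    ext x
    simp only [Finset.mem_map, Finset.mem_subtype, Function.Embedding.coeFn_mk, Subtype.exists, exists_and_right,
      exists_eq_right]
    exact ⟨fun h => ⟨hS h, h⟩, fun ⟨_, h⟩ => h⟩
  obtain ⟨N₀, hN₀⟩ := hA r θ δ d S' hθ
  have hcd : S'.card = S.card := by rw [hS', Finset.card_map]
  refine ⟨N₀, fun N hN α hα hrel => ?_⟩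
  obtain ⟨f, hf, hnear⟩ := hα
  rw [← hcd] at hnear
  refine hN₀ N hN f (fun i => ⟨(hf i).1, (hf i).2.1, (hf i).2.2.1⟩) hnear α (fun i => (hf i).2.2.2) ?_
  show Related L δ d _ θ α
  rw [← hS']
  exact hrel

end Pool.Agent.Results.MP_c9768e_nt.WindowsOfAlgebraicIntegers
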